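import Mathlib
import Pool.Agent.BLK.Main

/-!
# Ramsey numbers of block models with few blocks

Random graphs on `N` vertices with independent edges.  `RB M k` is the least `N` such that every block
model with `M` blocks on `N` vertices has a clique or an independent set of size `k` with probability at
least one half; with `N` blocks this is the deterministic Ramsey problem.
-/

namespace Pool.Agent.Results.MP_8d42bc_co.BlockModels

open Filter Pool.Agent.BLK

theorem result :
    -- as many blocks as vertices: the deterministic problem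
    (∀ k N : ℕ, HomB N (1 / 2) N k ↔ ∀ H : SimpleGraph (Fin N),
      (∃ s : Finset (Fin N), H.IsNClique k s) ∨ (∃ s : Finset (Fin N), Hᶜ.IsNClique k s)) ∧
    -- at most `exp (k / 1000)` blocks
    (∀ ε : ℝ, 0 < ε → ε < 1 → ∀ᶠ k : ℕ in atTop, ∀ M : ℕ, 1 ≤ M → Real.log M ≤ k / 1000 →
      (1 - ε) / (Real.exp 1 * Real.sqrt 2) * (k * (2 : ℝ) ^ ((k : ℝ) / 2)) ≤ (RB M k : ℝ) ∧
      (RB M k : ℝ) ≤ (1 + ε) * Real.exp (10 * Real.log M ^ 2 / k) /
        (Real.exp 1 * Real.sqrt 2) * (k * (2 : ℝ) ^ ((k : ℝ) / 2))) ∧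
    -- `exp (o (√k))` blocks: the ratio converges
    (∀ M : ℕ → ℕ, (∀ k, 1 ≤ M k) →
      Tendsto (fun k : ℕ => Real.log (M k) / Real.sqrt k) atTop (nhds 0) →
      Tendsto (fun k : ℕ => (RB (M k) k : ℝ) / (k * (2 : ℝ) ^ ((k : ℝ) / 2))) atTop
        (nhds (1 / (Real.exp 1 * Real.sqrt 2)))) :=
  ⟨bl_det, fun _ hε hε1 => bl_blk hε hε1, fun M hM hl => bl_lim M hM hl⟩

end Pool.Agent.Results.MP_8d42bc_co.BlockModels
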