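import Mathlib
import Pool.Agent.BLK.Main

/-!
# Ramsey numbers of Lipschitz kernels on low dimensional cubes

Random graphs on `N` vertices with independent edges, the vertices having positions in `[0,1]^d` and the
edge probabilities being a `Lam`-Lipschitz function of the two positions.  `RG d Lam k` is the least `N`
such that every such random graph has a clique or an independent set of size `k` with probability at
least one half.
-/

namespace Pool.Agent.Results.MP_8d42bc_co.LowDimension

open Filter Pool.Agent.BLK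

theorem result : ∀ A Lam ε : ℝ, 0 ≤ A → 0 ≤ Lam → 0 < ε → ε < 1 → ∀ᶠ k : ℕ in atTop, ∀ d : ℕ,
    (d : ℝ) ≤ A * Real.sqrt k / Real.log k →
    (1 - ε) / (Real.exp 1 * Real.sqrt 2) * (k * (2 : ℝ) ^ ((k : ℝ) / 2)) ≤ (RG d Lam k : ℝ) ∧
    (RG d Lam k : ℝ) ≤ (1 + ε) * Real.exp (3 * A ^ 2 + 3300 * Lam ^ 2) /
      (Real.exp 1 * Real.sqrt 2) * (k * (2 : ℝ) ^ ((k : ℝ) / 2)) :=
  fun _ _ _ hA hL hε hε1 => bl_geo hA hL hε hε1

end Pool.Agent.Results.MP_8d42bc_co.LowDimension
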