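import Mathlib
import Pool.Agent.Helper37.NoisyR.Final

/-!
# Ramsey numbers with noise: the window of width `1 / √k`

`RN q k` is the least `N` such that every random graph on `N` vertices with independent edges,
every pair being an edge with probability in `[q, 1 - q]`, has a clique or an independent set of
size `k` with probability at least one half.  For `q = 0` it is the diagonal Ramsey number.
-/

namespace Pool.Agent.Results.MP_8d42bc_co.NoiseWindow

open Filter Pool.Agent.Helper37.NoisyR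

theorem result :
    -- noise rate zero is the diagonal Ramsey number
    (∀ k : ℕ, RN 0 k = sInf {n : ℕ | ∀ G : SimpleGraph (Fin n),
      (∃ s : Finset (Fin n), G.IsNClique k s) ∨ (∃ s : Finset (Fin n), Gᶜ.IsNClique k s)}) ∧
    -- the window of width `A / √k`: the ratio stays between two positive constants
    (∀ A ε : ℝ, 0 ≤ A → 0 < ε → ε < 1 → ∀ᶠ k : ℕ in atTop, ∀ q : ℝ,
      1 / 2 - A / Real.sqrt k ≤ q → q ≤ 1 / 2 →
      (1 - ε) / (Real.exp 1 * Real.sqrt 2) * (k * (2 : ℝ) ^ ((k : ℝ) / 2)) ≤ (RN q k : ℝ) ∧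
      (RN q k : ℝ) ≤ (1 + ε) * Real.exp (A ^ 2) / (Real.exp 1 * Real.sqrt 2) *
        (k * (2 : ℝ) ^ ((k : ℝ) / 2))) ∧
    -- the window of width `o(1 / √k)`: the ratio converges
    (∀ q : ℕ → ℝ, (∀ k, q k ≤ 1 / 2) →
      Tendsto (fun k : ℕ => Real.sqrt k * (1 / 2 - q k)) atTop (nhds 0) →
      Tendsto (fun k : ℕ => (RN (q k) k : ℝ) / (k * (2 : ℝ) ^ ((k : ℝ) / 2))) atTop
        (nhds (1 / (Real.exp 1 * Real.sqrt 2)))) :=
  ⟨nr_RN_zero, fun _ _ hA hε hε1 => nr_window hA hε hε1, nr_limit⟩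

end Pool.Agent.Results.MP_8d42bc_co.NoiseWindow
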