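import Mathlib
import Pool.Agent.Helper37.NoisyR.Final

/-!
# Ramsey numbers with noise: upper bounds for every positive noise rate

`Hom q η N k`: every random graph on `N` vertices with independent edges, every pair being an
edge with probability in `[q, 1 - q]`, has a clique or an independent set of size `k` with
probability at least `1 - η`.
-/

namespace Pool.Agent.Results.MP_8d42bc_co.SmoothedRamsey

open Filter Pool.Agent.Helper37.NoisyR

theorem result :
    -- all positive noise rates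
    (∀ q ε : ℝ, 0 < q → q ≤ 1 / 2 → 0 < ε → ∀ᶠ k : ℕ in atTop, ∀ N : ℕ,
      (q * (1 - q)) ^ (-((1 / 4 + ε) * (k : ℝ))) ≤ N → Hom q ε N k) ∧
    -- noise rates between 9/25 and 1/2: no loss in the exponent, uniformly in the noise rate
    (∀ ε : ℝ, 0 < ε → ∀ᶠ k : ℕ in atTop, ∀ q : ℝ, 9 / 25 ≤ q → q ≤ 1 / 2 → ∀ N : ℕ,
      (1 + ε) * (k / Real.exp 1) * (q * (1 - q)) ^ (-((k : ℝ) - 1) / 4) ≤ N → Hom q ε N k) :=
  ⟨fun _ _ hq0 hq1 hε => nr_partC hq0 hq1 hε, fun _ hε => nr_partB hε⟩

end Pool.Agent.Results.MP_8d42bc_co.SmoothedRamsey
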